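import Pool.Agent.P8H99.GO.Stm

/-!
# Package FIB of the project GO (MP_ac85ec_co): the number of maps with given sizes of the fibres
-/

set_option autoImplicit false
set_option linter.all false

namespace Pool.Agent.P8H73.OD

open Finset
open Pool.Agent.P8H99.GO (mult S_FIB)

/-- The maps with a given fibre over `0` are at most as many as the maps of the complement with the remaining sizes. -/
theorem fib_step (k : ℕ) (α : Type) [Fintype α] [DecidableEq α] (s : Fin (k + 1) → ℕ) (A : Finset α) :
    (((univ : Finset (α → Fin (k + 1))).filter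
        (fun g => ∀ i, (univ.filter (fun p => g p = i)).card = s i)).filter
        (fun g => univ.filter (fun p => g p = 0) = A)).card ≤
      ((univ : Finset ({x : α // x ∉ A} → Fin k)).filter
        (fun g => ∀ i, (univ.filter (fun p => g p = i)).card = s i.succ)).card := by
  classical
  let ext : ({x : α // x ∉ A} → Fin k) → (α → Fin (k + 1)) :=
    fun g p => if h : p ∈ A then 0 else (g ⟨p, h⟩).succ
  refine le_trans (Finset.card_le_card ?_)
    (Finset.card_image_le (f := ext))
  intro g hg
  rw [mem_filter, mem_filter] at hg
  obtain ⟨⟨-, hs⟩, hA⟩ := hg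
  have hne : ∀ p : {x : α // x ∉ A}, g p.1 ≠ 0 := by
    intro p h0
    exact p.2 ((Finset.ext_iff.1 hA p.1).1 (mem_filter.2 ⟨mem_univ _, h0⟩))
  rw [mem_image]
  refine ⟨fun p => (g p.1).pred (hne p), ?_, ?_⟩
  · rw [mem_filter]
    refine ⟨mem_univ _, fun i => ?_⟩
    rw [← hs i.succ, ← Finset.card_map (Function.Embedding.subtype _)]
    congr 1
    ext p
    simp only [mem_map, mem_filter, mem_univ, true_and, Function.Embedding.subtype_apply]
    constructor
    · rintro ⟨q, hq, rfl⟩
      rw [← hq, Fin.succ_pred]
    · intro hp
      have hpA : p ∉ A := by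
        rw [← hA]
        intro h
        have h0 := (mem_filter.1 h).2
        rw [hp] at h0
        exact Fin.succ_ne_zero i h0
      refine ⟨⟨p, hpA⟩, ?_, rfl⟩
      apply Fin.succ_injective
      rw [Fin.succ_pred]
      exact hp
  · funext p
    by_cases hp : p ∈ A
    · have h0 : g p = 0 := by
        rw [← hA] at hp
        exact (mem_filter.1 hp).2
      simp only [ext, dif_pos hp, h0]
    · simp only [ext, dif_neg hp, Fin.succ_pred]

theorem fib : S_FIB := by
  intro k
  induction k with
  | zero =>
    intro α _ _ s
    rw [List.ofFn_zero]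
    exact Finset.card_le_one_of_subsingleton _
  | succ k ih =>
    intro α _ _ s
    rcases Finset.eq_empty_or_nonempty ((univ : Finset (α → Fin (k + 1))).filter
        (fun g => ∀ i, (univ.filter (fun p => g p = i)).card = s i)) with h0 | ⟨g₀, hg₀⟩
    · rw [h0, card_empty]
      exact Nat.zero_le _
    · have hcard : s 0 + (List.ofFn (fun i : Fin k => s i.succ)).sum = Fintype.card α := by
        rw [List.sum_ofFn, ← Fin.sum_univ_succ s]
        have h1 : ∀ i, s i = (univ.filter (fun p => g₀ p = i)).card :=
          fun i => ((mem_filter.1 hg₀).2 i).symm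
        rw [Finset.sum_congr rfl (fun i _ => h1 i), ← Finset.card_univ]
        exact (Finset.card_eq_sum_card_fiberwise (fun p _ => mem_univ (g₀ p))).symm
      rw [List.ofFn_succ]
      change _ ≤ (s 0 + (List.ofFn (fun i : Fin k => s i.succ)).sum).choose (s 0) *
        mult (List.ofFn (fun i : Fin k => s i.succ))
      rw [hcard]
      have hmaps : ∀ g ∈ (univ : Finset (α → Fin (k + 1))).filter
          (fun g => ∀ i, (univ.filter (fun p => g p = i)).card = s i),
          univ.filter (fun p => g p = 0) ∈ powersetCard (s 0) (univ : Finset α) := by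
        intro g hg
        rw [mem_powersetCard]
        exact ⟨subset_univ _, (mem_filter.1 hg).2 0⟩
      rw [Finset.card_eq_sum_card_fiberwise hmaps]
      refine le_trans (Finset.sum_le_card_nsmul _ _ (mult (List.ofFn (fun i : Fin k => s i.succ))) ?_) ?_
      · intro A _
        exact le_trans (fib_step k α s A) (ih {x : α // x ∉ A} (fun i => s i.succ))
      · rw [card_powersetCard, card_univ, smul_eq_mul]

end Pool.Agent.P8H73.OD
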